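import Mathlib
import Pool.Agent.Results.MP_9f131e_lc.IsotypicFree

/-!
# Infinitely many points of the same type which no automorphism of a free algebra can move

There is a variety with unary operations only such that for every `n ≥ 1` its free algebra of rank
`n` has infinitely many elements which all have the same complete type, while no automorphism
carries one of them to another; the free algebra of rank one has no automorphism besides the
identity.

The variety has the operations `f` and `c a`, `a ∈ ℤ × ℕ`.  The free algebra of rank `n` consists of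
words in the letters `c a` and of elements `b i z`, `i < n`, `z ∈ ℤ`, and `f` sends a word to the sum
of the first coordinates of its letters.  A formula contains only finitely many letters; the
remaining letters give an automorphism of the corresponding reduct adding one to all sums.
-/

set_option autoImplicit false
open FirstOrder FirstOrder.Language

namespace Pool.Agent.Results.MP_9f131e_lc.RigidInfinitelyManyPoints

open Pool.Agent.Results.MP_9f131e_lc.IsotypicFree (InVariety IsFreeOn SameType Isotypic)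

/-! ### The variety -/

/-- Function symbols: only unary ones, `none` is `f` and `some a` is `c a`. -/
def Fn : ℕ → Type
  | 1 => Option (ℤ × ℕ)
  | _ => Empty

/-- The language with the unary function symbols `f` and `c a`, `a ∈ ℤ × ℕ`. -/
def L1 : FirstOrder.Language.{0, 0} := ⟨Fn, fun _ => Empty⟩

/-- The symbol `f`. -/
def sf : L1.Functions 1 := (none : Option (ℤ × ℕ))

/-- The symbol `c a`. -/
def sc (a : ℤ × ℕ) : L1.Functions 1 := (some a : Option (ℤ × ℕ))

theorem fn_cases {P : ∀ (l : ℕ), L1.Functions l → Prop} (h1 : P 1 sf) (h2 : ∀ a, P 1 (sc a)) :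
    ∀ (l : ℕ) (g : L1.Functions l), P l g
  | 0, g => Empty.elim g
  | 1, g => match g with
    | none => h1
    | some a => h2 a
  | (_ + 2), g => Empty.elim g

/-- The term `f t`. -/
def tf {α : Type} (t : L1.Term α) : L1.Term α := Term.func sf (fun _ => t)

/-- The term `c a t`. -/
def tc {α : Type} (a : ℤ × ℕ) (t : L1.Term α) : L1.Term α := Term.func (sc a) (fun _ => t)

/-- The variable. -/
def vx : L1.Term (Fin 1) := Term.var 0

/-- The identities `f (c (j,0) (c a x)) = f (c (j + a.1, 0) x)`, `f (c (0,0) x) = f x`,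
`c a (f x) = f x`, `f (f x) = f x`. -/
def E1 : Set (Σ n : ℕ, L1.Term (Fin n) × L1.Term (Fin n)) :=
  {e | (∃ (j : ℤ) (a : ℤ × ℕ), e = ⟨1, (tf (tc (j, 0) (tc a vx)), tf (tc (j + a.1, 0) vx))⟩) ∨
    e = ⟨1, (tf (tc (0, 0) vx), tf vx)⟩ ∨
    (∃ a, e = ⟨1, (tc a (tf vx), tf vx)⟩) ∨ e = ⟨1, (tf (tf vx), tf vx)⟩}

/-- Interpretation of `f` in an algebra. -/
def opf {A : Type} [L1.Structure A] (y : A) : A := Structure.funMap sf (fun _ => y)

/-- Interpretation of `c a` in an algebra. -/
def opc {A : Type} [L1.Structure A] (a : ℤ × ℕ) (y : A) : A := Structure.funMap (sc a) (fun _ => y)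

theorem funMap_sf {A : Type} [L1.Structure A] (x : Fin 1 → A) :
    Structure.funMap sf x = opf (x 0) := by
  unfold opf
  congr 1
  funext i
  rw [Subsingleton.elim i 0]

theorem funMap_sc {A : Type} [L1.Structure A] (a : ℤ × ℕ) (x : Fin 1 → A) :
    Structure.funMap (sc a) x = opc a (x 0) := by
  unfold opc
  congr 1
  funext i
  rw [Subsingleton.elim i 0]

theorem sat_iff (A : Type) [L1.Structure A] : InVariety L1 E1 A ↔
    ((∀ (j : ℤ) (a : ℤ × ℕ), ∀ y : A, opf (opc (j, 0) (opc a y)) = opf (opc (j + a.1, 0) y)) ∧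
    (∀ y : A, opf (opc (0, 0) y) = opf y) ∧
    (∀ a, ∀ y : A, opc a (opf y) = opf y) ∧ (∀ y : A, opf (opf y) = opf y)) := by
  constructor
  · intro h
    refine ⟨fun j a y => ?_, fun y => ?_, fun a y => ?_, fun y => ?_⟩
    · exact h _ (Or.inl ⟨j, a, rfl⟩) (fun _ => y)
    · exact h _ (Or.inr (Or.inl rfl)) (fun _ => y)
    · exact h _ (Or.inr (Or.inr (Or.inl ⟨a, rfl⟩))) (fun _ => y)
    · exact h _ (Or.inr (Or.inr (Or.inr rfl))) (fun _ => y)
  · rintro ⟨h1, h2, h3, h4⟩ e (⟨j, a, rfl⟩ | rfl | ⟨a, rfl⟩ | rfl) v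
    · exact h1 j a (v 0)
    · exact h2 (v 0)
    · exact h3 a (v 0)
    · exact h4 (v 0)

/-! ### The free algebras -/

/-- The free algebra of rank `n`: words in the letters `c a` applied to a generator, and the
elements `b i z`. -/
inductive W (n : ℕ) : Type
  | w : Fin n → List (ℤ × ℕ) → W n
  | b : Fin n → ℤ → W n

/-- The sum of the first coordinates of the letters of a word. -/
def psi (l : List (ℤ × ℕ)) : ℤ := (l.map Prod.fst).sum

theorem psi_nil : psi [] = 0 := rfl

theorem psi_cons (a : ℤ × ℕ) (l : List (ℤ × ℕ)) : psi (a :: l) = a.1 + psi l := by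
  simp [psi]

theorem psi_append (l l' : List (ℤ × ℕ)) : psi (l ++ l') = psi l + psi l' := by
  simp [psi]

/-- Interpretation of `f`. -/
def Wf {n : ℕ} : W n → W n
  | W.w i l => W.b i (psi l)
  | W.b i z => W.b i z

/-- Interpretation of `c a`. -/
def Wc {n : ℕ} (a : ℤ × ℕ) : W n → W n
  | W.w i l => W.w i (a :: l)
  | W.b i z => W.b i z

/-- Interpretation of the function symbols. -/
def Wfun {n : ℕ} : ∀ {l : ℕ}, L1.Functions l → (Fin l → W n) → W n
  | 0, g => Empty.elim g
  | 1, g => match g with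
    | none => fun x => Wf (x 0)
    | some a => fun x => Wc a (x 0)
  | (_ + 2), g => Empty.elim g

instance (n : ℕ) : L1.Structure (W n) where
  funMap := Wfun
  RelMap := fun r => Empty.elim r

variable {n : ℕ}

theorem W_opf (y : W n) : opf y = Wf y := rfl

theorem W_opc (a : ℤ × ℕ) (y : W n) : opc a y = Wc a y := rfl

theorem W_sat : InVariety L1 E1 (W n) := by
  rw [sat_iff]
  refine ⟨fun j a y => ?_, fun y => ?_, fun a y => ?_, fun y => ?_⟩
  · cases y with
    | w i l =>
      simp only [W_opf, W_opc, Wf, Wc, psi_cons]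
      congr 1
      ring
    | b i z => rfl
  · cases y with
    | w i l =>
      simp only [W_opf, W_opc, Wf, Wc, psi_cons]
      congr 1
      ring
    | b i z => rfl
  · cases y <;> rfl
  · cases y <;> rfl

/-- The generators of the free algebra. -/
def gen (i : Fin n) : W n := W.w i []

theorem gen_not (i : Fin n) (l : ℕ) (g : L1.Functions l) (x : Fin l → W n) :
    Structure.funMap g x ≠ gen i := by
  revert x
  refine fn_cases (P := fun l g => ∀ x : Fin l → W n, Structure.funMap g x ≠ gen i) ?_ ?_ l g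
  · intro x
    rw [funMap_sf, W_opf]
    cases x 0 <;> simp [Wf, gen]
  · intro a x
    rw [funMap_sc, W_opc]
    cases x 0 <;> simp [Wc, gen]

section univ

variable {M : Type} [L1.Structure M]

/-- The image of a word under the homomorphism sending a generator to `p`. -/
def word (p : M) (l : List (ℤ × ℕ)) : M := l.foldr (fun a y => opc a y) p

theorem word_nil (p : M) : word p [] = p := rfl

theorem word_cons (p : M) (a : ℤ × ℕ) (l : List (ℤ × ℕ)) : word p (a :: l) = opc a (word p l) := rfl

/-- The homomorphism from the free algebra sending the generators to `p i`. -/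
def ext0 (p : Fin n → M) : W n → M
  | W.w i l => word (p i) l
  | W.b i z => opf (opc (z, 0) (p i))

theorem opf_word (hM : InVariety L1 E1 M) (p : M) (l : List (ℤ × ℕ)) :
    opf (word p l) = opf (opc (psi l, 0) p) := by
  rw [sat_iff] at hM
  obtain ⟨h1, h2, h3, h4⟩ := hM
  have key : ∀ (l : List (ℤ × ℕ)) (j : ℤ),
      opf (opc (j, 0) (word p l)) = opf (opc (j + psi l, 0) p) := by
    intro l
    induction l with
    | nil =>
      intro j
      rw [word_nil, psi_nil, add_zero]
    | cons a l ih =>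
      intro j
      rw [word_cons, h1, ih, psi_cons, add_assoc]
  rw [← h2, key, zero_add]

theorem ext0_hom (hM : InVariety L1 E1 M) (p : Fin n → M) (l : ℕ) (g : L1.Functions l)
    (x : Fin l → W n) : ext0 p (Structure.funMap g x) = Structure.funMap g (ext0 p ∘ x) := by
  have hM' := (sat_iff M).1 hM
  obtain ⟨h1, h2, h3, h4⟩ := hM'
  revert x
  refine fn_cases (P := fun l g => ∀ x : Fin l → W n,
    ext0 p (Structure.funMap g x) = Structure.funMap g (ext0 p ∘ x)) ?_ ?_ l g
  · intro x
    rw [funMap_sf, funMap_sf, W_opf, Function.comp_apply]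
    cases x 0 with
    | w i l => simp only [Wf, ext0, opf_word hM (p i) l]
    | b i z => simp only [Wf, ext0, h4]
  · intro a x
    rw [funMap_sc, funMap_sc, W_opc, Function.comp_apply]
    cases x 0 with
    | w i l => simp only [Wc, ext0, word_cons]
    | b i z => simp only [Wc, ext0, h3]

/-- The homomorphism from the free algebra sending the generators to `p i`. -/
def extHom (hM : InVariety L1 E1 M) (p : Fin n → M) : L1.Hom (W n) M where
  toFun := ext0 p
  map_fun' := fun g x => ext0_hom hM p _ g x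
  map_rel' := fun r => Empty.elim r

theorem hom_opf {A : Type} [L1.Structure A] (g : L1.Hom A M) (y : A) :
    g (opf y) = opf (g y) := by
  have := g.map_fun sf (fun _ => y)
  rw [funMap_sf, funMap_sf] at this
  exact this

theorem hom_opc {A : Type} [L1.Structure A] (g : L1.Hom A M) (a : ℤ × ℕ) (y : A) :
    g (opc a y) = opc a (g y) := by
  have := g.map_fun (sc a) (fun _ => y)
  rw [funMap_sc, funMap_sc] at this
  exact this

theorem b_eq (i : Fin n) (z : ℤ) : W.b i z = opf (opc (z, 0) (gen i)) := by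
  simp [W_opf, W_opc, Wf, Wc, gen, psi_cons, psi_nil]

theorem hom_unique (h k : L1.Hom (W n) M) (hk : ∀ i, h (gen i) = k (gen i)) : h = k := by
  apply Hom.ext
  intro y
  cases y with
  | w i l =>
    induction l with
    | nil => exact hk i
    | cons a l ih =>
      have : W.w i (a :: l) = opc a (W.w i l) := rfl
      rw [this, hom_opc, hom_opc, ih]
  | b i z => rw [b_eq, hom_opf, hom_opf, hom_opc, hom_opc, hk]

end univ

theorem W_free (M : Type) [L1.Structure M] (hM : InVariety L1 E1 M) (p : Fin n → M) :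
    ∃! h : L1.Hom (W n) M, ⇑h ∘ (fun i : Fin n => gen i) = p := by
  refine ⟨extHom hM p, ?_, ?_⟩
  · funext i
    rfl
  · intro k hk
    apply hom_unique
    intro i
    exact congrFun hk i

/-! ### The automorphisms of the reducts -/

/-- the test for being one of the letters of `F` -/
def inF (F : Finset (ℤ × ℕ)) (a : ℤ × ℕ) : Bool := decide (a ∈ F)

/-- the words which do not begin with a letter of `F` -/
def G (F : Finset (ℤ × ℕ)) : Type := {g : List (ℤ × ℕ) // ∀ a ∈ g.head?, inF F a = false}

theorem take_drop {F : Finset (ℤ × ℕ)} {g : List (ℤ × ℕ)} (hg : ∀ a ∈ g.head?, inF F a = false)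
    (v : List (ℤ × ℕ)) (hv : ∀ a ∈ v, inF F a = true) :
    (v ++ g).takeWhile (inF F) = v ∧ (v ++ g).dropWhile (inF F) = g := by
  induction v with
  | nil =>
    cases g with
    | nil => simp
    | cons a g =>
      have := hg a (by simp)
      simp [this]
  | cons a v ih =>
    have h1 := hv a (by simp)
    have h2 := ih (fun b hb => hv b (by simp [hb]))
    simp [h1, h2.1, h2.2]

theorem head_drop (F : Finset (ℤ × ℕ)) (l : List (ℤ × ℕ)) :
    ∀ a ∈ (l.dropWhile (inF F)).head?, inF F a = false := by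
  induction l with
  | nil => simp
  | cons b l ih =>
    by_cases hb : inF F b = true
    · simpa [hb] using ih
    · intro a ha
      simp only [Bool.not_eq_true] at hb
      simp [hb] at ha
      rw [← ha]
      exact hb

theorem mem_take (F : Finset (ℤ × ℕ)) (l : List (ℤ × ℕ)) :
    ∀ a ∈ l.takeWhile (inF F), inF F a = true := fun _ ha => List.mem_takeWhile_imp ha

/-- the last part of a word -/
def dr (F : Finset (ℤ × ℕ)) (l : List (ℤ × ℕ)) : G F := ⟨l.dropWhile (inF F), head_drop F l⟩

theorem exists_shift (F : Finset (ℤ × ℕ)) : ∃ e : G F ≃ G F, ∀ g, psi (e g).1 = psi g.1 + 1 := by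
  have hcount : ∀ j : ℤ, Countable {g : G F // psi g.1 = j} := by
    intro j
    have : Countable (G F) := by
      unfold G
      infer_instance
    infer_instance
  have hinf : ∀ j : ℤ, Infinite {g : G F // psi g.1 = j} := by
    intro j
    have h1 : {i : ℕ | (j, i) ∈ F}.Finite :=
      F.finite_toSet.preimage (fun a _ b _ h => (Prod.mk.inj h).2)
    have h2 : Infinite ({i : ℕ | (j, i) ∈ F}ᶜ : Set ℕ) := h1.infinite_compl.to_subtype
    refine Infinite.of_injective (fun i : ({i : ℕ | (j, i) ∈ F}ᶜ : Set ℕ) =>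
      (⟨⟨[(j, i.1)], by
        intro a ha
        simp only [List.head?_cons, Option.mem_def, Option.some.injEq] at ha
        rw [← ha]
        have h9 : (j, i.1) ∉ F := i.2
        simp [inF, h9]⟩, by simp [psi]⟩ : {g : G F // psi g.1 = j})) ?_
    intro a b hab
    have h3 := congrArg (fun x => x.1.1) hab
    simp only [List.cons.injEq, Prod.mk.injEq, true_and, and_true] at h3
    exact Subtype.ext h3
  have hc : ∀ j : ℤ, Nonempty ({g : G F // psi g.1 = j} ≃ {g : G F // psi g.1 = j + 1}) := by
    intro j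
    have := hcount j
    have := hcount (j + 1)
    have := hinf j
    have := hinf (j + 1)
    exact nonempty_equiv_of_countable
  have c : ∀ j : ℤ, {g : G F // psi g.1 = j} ≃ {g : G F // psi g.1 = j + 1} :=
    fun j => Classical.choice (hc j)
  set f : G F → ℤ := fun g => psi g.1 with hf
  refine ⟨((Equiv.sigmaFiberEquiv f).symm.trans
    (Equiv.sigmaCongr (Equiv.addRight (1 : ℤ)) c)).trans (Equiv.sigmaFiberEquiv f), ?_⟩
  intro g
  exact (c (f g) ⟨g, rfl⟩).2

/-- the shift of the words -/
noncomputable def ef (F : Finset (ℤ × ℕ)) : G F ≃ G F := Classical.choose (exists_shift F)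

theorem ef_psi (F : Finset (ℤ × ℕ)) (g : G F) : psi (ef F g).1 = psi g.1 + 1 :=
  Classical.choose_spec (exists_shift F) g

/-- the automorphism of the reduct -/
noncomputable def sg (F : Finset (ℤ × ℕ)) : W n → W n
  | W.w i l => W.w i (l.takeWhile (inF F) ++ (ef F (dr F l)).1)
  | W.b i z => W.b i (z + 1)

/-- its inverse -/
noncomputable def sg' (F : Finset (ℤ × ℕ)) : W n → W n
  | W.w i l => W.w i (l.takeWhile (inF F) ++ ((ef F).symm (dr F l)).1)
  | W.b i z => W.b i (z - 1)

theorem dr_append (F : Finset (ℤ × ℕ)) (l : List (ℤ × ℕ)) (g : G F) :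
    (l.takeWhile (inF F) ++ g.1).takeWhile (inF F) = l.takeWhile (inF F) ∧
      dr F (l.takeWhile (inF F) ++ g.1) = g := by
  have h := take_drop g.2 _ (mem_take F l)
  exact ⟨h.1, Subtype.ext h.2⟩

theorem dr_val (F : Finset (ℤ × ℕ)) (l : List (ℤ × ℕ)) :
    l.takeWhile (inF F) ++ (dr F l).1 = l := List.takeWhile_append_dropWhile

theorem sg'_sg (F : Finset (ℤ × ℕ)) (y : W n) : sg' F (sg F y) = y := by
  cases y with
  | w i l =>
    simp only [sg, sg']
    obtain ⟨h1, h2⟩ := dr_append F l (ef F (dr F l))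
    rw [h1, h2, Equiv.symm_apply_apply, dr_val]
  | b i z => simp [sg, sg']

theorem sg_sg' (F : Finset (ℤ × ℕ)) (y : W n) : sg F (sg' F y) = y := by
  cases y with
  | w i l =>
    simp only [sg, sg']
    obtain ⟨h1, h2⟩ := dr_append F l ((ef F).symm (dr F l))
    rw [h1, h2, Equiv.apply_symm_apply, dr_val]
  | b i z => simp [sg, sg']

theorem sg_inj (F : Finset (ℤ × ℕ)) : Function.Injective (sg F : W n → W n) := by
  intro y z h
  rw [← sg'_sg F y, h, sg'_sg]

theorem sg_opf (F : Finset (ℤ × ℕ)) (y : W n) : sg F (opf y) = opf (sg F y) := by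
  cases y with
  | w i l =>
    simp only [W_opf, Wf, sg, psi_append, ef_psi]
    have h : psi l = psi (l.takeWhile (inF F)) + psi (dr F l).1 := by
      rw [← psi_append, dr_val]
    rw [h]
    congr 1
    ring
  | b i z => rfl

theorem sg_opc (F : Finset (ℤ × ℕ)) (a : ℤ × ℕ) (h : a ∈ F) (y : W n) :
    sg F (opc a y) = opc a (sg F y) := by
  cases y with
  | w i l =>
    have ha : inF F a = true := by simpa [inF] using h
    simp only [W_opc, Wc, sg]
    have h1 : dr F (a :: l) = dr F l := by
      apply Subtype.ext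
      show (a :: l).dropWhile (inF F) = l.dropWhile (inF F)
      simp [ha]
    rw [h1]
    simp [ha]
  | b i z => rfl

theorem sg_term {α : Type} (t : L1.Term α) :
    ∃ F0 : Finset (ℤ × ℕ), ∀ F, F0 ⊆ F →
      ∀ v : α → W n, t.realize (sg F ∘ v) = sg F (t.realize v) := by
  classical
  induction t with
  | var i => exact ⟨∅, fun F _ v => rfl⟩
  | func g ts ih =>
    rename_i l
    choose B hB using ih
    obtain ⟨F1, hF1⟩ : ∃ F1 : Finset (ℤ × ℕ), ∀ F, F1 ⊆ F → ∀ x : Fin l → W n,
        Structure.funMap g (sg F ∘ x) = sg F (Structure.funMap g x) := by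
      refine fn_cases (P := fun l g => ∃ F1 : Finset (ℤ × ℕ), ∀ F, F1 ⊆ F → ∀ x : Fin l → W n,
        Structure.funMap g (sg F ∘ x) = sg F (Structure.funMap g x)) ?_ ?_ l g
      · refine ⟨∅, fun F _ x => ?_⟩
        rw [funMap_sf, funMap_sf, sg_opf]
        rfl
      · intro a
        refine ⟨{a}, fun F hF x => ?_⟩
        rw [funMap_sc, funMap_sc, sg_opc F a (hF (Finset.mem_singleton_self a))]
        rfl
    refine ⟨F1 ∪ Finset.univ.biUnion B, fun F hF v => ?_⟩
    rw [Term.realize_func, Term.realize_func,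
      ← hF1 F (Finset.subset_union_left.trans hF)]
    congr 1
    funext i
    rw [Function.comp_apply]
    apply hB
    exact ((Finset.subset_biUnion_of_mem B (Finset.mem_univ i)).trans
      Finset.subset_union_right).trans hF

theorem sg_formula {α : Type} {m : ℕ} (φ : L1.BoundedFormula α m) :
    ∃ F0 : Finset (ℤ × ℕ), ∀ F, F0 ⊆ F → ∀ (v : α → W n) (xs : Fin m → W n),
      (φ.Realize (sg F ∘ v) (sg F ∘ xs) ↔ φ.Realize v xs) := by
  classical
  induction φ with
  | falsum => exact ⟨∅, fun F _ v xs => Iff.rfl⟩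
  | equal t₁ t₂ =>
    obtain ⟨F1, h1⟩ := sg_term (n := n) t₁
    obtain ⟨F2, h2⟩ := sg_term (n := n) t₂
    refine ⟨F1 ∪ F2, fun F hF v xs => ?_⟩
    simp only [BoundedFormula.Realize]
    rw [← Sum.comp_elim, h1 F (Finset.subset_union_left.trans hF),
      h2 F (Finset.subset_union_right.trans hF)]
    exact (sg_inj F).eq_iff
  | rel R ts => exact Empty.elim R
  | imp f₁ f₂ ih1 ih2 =>
    obtain ⟨F1, h1⟩ := ih1
    obtain ⟨F2, h2⟩ := ih2
    refine ⟨F1 ∪ F2, fun F hF v xs => ?_⟩
    simp only [BoundedFormula.Realize]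
    rw [h1 F (Finset.subset_union_left.trans hF), h2 F (Finset.subset_union_right.trans hF)]
  | all f ih =>
    obtain ⟨F1, h1⟩ := ih
    refine ⟨F1, fun F hF v xs => ?_⟩
    simp only [BoundedFormula.Realize]
    constructor
    · intro h x
      have := h (sg F x)
      rw [← Fin.comp_snoc, h1 F hF] at this
      exact this
    · intro h x
      have := h (sg' F x)
      rw [← h1 F hF, Fin.comp_snoc, sg_sg'] at this
      exact this

/-- Tuples of elements `b i z` have the same type as the tuples with all `z` increased by one. -/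
theorem step {m : ℕ} (i : Fin m → Fin n) (z : Fin m → ℤ) :
    SameType L1 (fun r => W.b (i r) (z r) : Fin m → W n) (fun r => W.b (i r) (z r + 1)) := by
  intro φ
  obtain ⟨F0, h⟩ := sg_formula (n := n) φ
  have h1 := h F0 (Finset.Subset.refl _) (fun r => W.b (i r) (z r)) default
  unfold Formula.Realize
  rw [← h1]
  have e1 : (sg F0 ∘ fun r : Fin m => (W.b (i r) (z r) : W n)) = fun r => W.b (i r) (z r + 1) := by
    funext r
    rfl
  rw [e1]
  have e2 : (sg F0 ∘ (default : Fin 0 → W n)) = default := Subsingleton.elim _ _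
  rw [e2]

theorem same_type {m : ℕ} (i : Fin m → Fin n) (z : Fin m → ℤ) (t : ℤ) :
    SameType L1 (fun r => W.b (i r) (z r) : Fin m → W n) (fun r => W.b (i r) (z r + t)) := by
  induction t using Int.induction_on with
  | zero =>
    intro φ
    simp
  | succ t ih =>
    intro φ
    rw [ih φ, step i (fun r => z r + t) φ]
    simp only [add_assoc]
  | pred t ih =>
    intro φ
    rw [ih φ]
    have : (fun r => (W.b (i r) (z r + -(t : ℤ)) : W n)) =
        fun r => W.b (i r) (z r + (-(t : ℤ) - 1) + 1) := by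
      funext r
      congr 1
      ring
    rw [this]
    exact (step i (fun r => z r + (-(t : ℤ) - 1)) φ).symm

/-- automorphisms permute the generators -/
theorem auto_gen (σ : L1.Equiv (W n) (W n)) (i : Fin n) : ∃ j, σ (gen i) = gen j := by
  cases h : σ (gen i) with
  | w j l =>
    cases l with
    | nil => exact ⟨j, rfl⟩
    | cons a l =>
      exfalso
      have h2 : W.w j (a :: l) = opc a (W.w j l) := rfl
      obtain ⟨z, hz⟩ := σ.surjective (W.w j l)
      rw [h2, ← hz] at h
      have h3 : σ (opc a z) = opc a (σ z) := hom_opc σ.toHom a z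
      rw [← h3] at h
      have h4 := σ.injective h
      exact gen_not i 1 (sc a) (fun _ => z) h4.symm
  | b j x =>
    exfalso
    have h2 : W.b j x = opf (W.b j x) := rfl
    obtain ⟨z, hz⟩ := σ.surjective (W.b j x)
    rw [h2, ← hz] at h
    have h3 : σ (opf z) = opf (σ z) := hom_opf σ.toHom z
    rw [← h3] at h
    have h4 := σ.injective h
    exact gen_not i 1 sf (fun _ => z) h4.symm

theorem auto_b (σ : L1.Equiv (W n) (W n)) (i : Fin n) (z : ℤ) : ∃ j, σ (W.b i z) = W.b j z := by
  obtain ⟨j, hj⟩ := auto_gen σ i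
  refine ⟨j, ?_⟩
  have h1 : σ (opc (z, 0) (gen i)) = opc (z, 0) (σ (gen i)) := hom_opc σ.toHom _ _
  have h2 : σ (opf (opc (z, 0) (gen i))) = opf (σ (opc (z, 0) (gen i))) := hom_opf σ.toHom _
  rw [b_eq, h2, h1, hj, ← b_eq]

theorem auto_one (σ : L1.Equiv (W 1) (W 1)) (y : W 1) : σ y = y := by
  have hg : ∀ i : Fin 1, σ (gen i) = gen i := by
    intro i
    obtain ⟨j, hj⟩ := auto_gen σ i
    rw [hj, Subsingleton.elim j i]
  have h : σ.toHom = Hom.id L1 (W 1) := hom_unique _ _ hg
  exact congrArg (fun k : L1.Hom (W 1) (W 1) => k y) h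

/-- **Main result.** -/
theorem result :
    -- Q1 in the form of the problem
    (∃ (L : FirstOrder.Language.{0, 0}) (_ : ∀ n, IsEmpty (L.Relations n))
      (E : Set (Σ n : ℕ, L.Term (Fin n) × L.Term (Fin n)))
      (H₁ H₂ : Type) (_ : L.Structure H₁) (_ : L.Structure H₂)
      (n₁ n₂ : ℕ) (ι₁ : Fin n₁ → H₁) (ι₂ : Fin n₂ → H₂)
      (m : ℕ) (μ : Fin m → H₁) (ν : Fin m → H₂),
      IsFreeOn L E n₁ H₁ ι₁ ∧ IsFreeOn L E n₂ H₂ ι₂ ∧ Isotypic L H₁ H₂ ∧
      SameType L μ ν ∧ ¬ ∃ σ : L.Equiv H₁ H₂, ⇑σ ∘ μ = ν) ∧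
    -- one variety, all ranks, infinitely many points, shifts of tuples
    ∃ (L : FirstOrder.Language.{0, 0}) (_ : ∀ n, IsEmpty (L.Relations n))
      (_ : ∀ n, n ≠ 1 → IsEmpty (L.Functions n))
      (E : Set (Σ n : ℕ, L.Term (Fin n) × L.Term (Fin n))),
      ∀ n : ℕ, 1 ≤ n → ∃ (H : Type) (_ : L.Structure H) (ι : Fin n → H) (b : ℤ → H),
        IsFreeOn L E n H ι ∧ Countable H ∧
        (∀ (m : ℕ) (z : Fin m → ℤ) (t : ℤ),
          SameType L (fun r => b (z r)) (fun r => b (z r + t))) ∧
        (∀ z z' : ℤ, SameType L (fun _ : Fin 1 => b z) (fun _ : Fin 1 => b z')) ∧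
        (∀ z z' : ℤ, z ≠ z' → ¬ ∃ σ : L.Equiv H H, σ (b z) = b z') ∧
        (n = 1 → ∀ (σ : L.Equiv H H) (y : H), σ y = y) := by
  refine ⟨?_, L1, fun n => ⟨fun r => Empty.elim r⟩, ?_, E1, ?_⟩
  · refine ⟨L1, fun n => ⟨fun r => Empty.elim r⟩, E1, W 1, W 1, inferInstance, inferInstance, 1, 1,
      fun i => gen i, fun i => gen i, 1, fun _ => W.b 0 0, fun _ => W.b 0 1,
      ⟨W_sat, W_free⟩, ⟨W_sat, W_free⟩, ?_, ?_, ?_⟩
    · intro m
      exact ⟨fun a => ⟨a, fun φ => Iff.rfl⟩, fun b => ⟨b, fun φ => Iff.rfl⟩⟩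
    · exact step (fun _ : Fin 1 => (0 : Fin 1)) (fun _ => 0)
    · rintro ⟨σ, hσ⟩
      have h1 := congrFun hσ 0
      simp only [Function.comp_apply] at h1
      obtain ⟨j, hj⟩ := auto_b σ 0 0
      rw [hj] at h1
      simp only [W.b.injEq] at h1
      omega
  · intro k hk
    match k, hk with
    | 0, _ => exact ⟨fun g => Empty.elim g⟩
    | 1, h => exact absurd rfl h
    | k + 2, _ => exact ⟨fun g => Empty.elim g⟩
  · intro n hn
    refine ⟨W n, inferInstance, fun i => gen i, fun z => W.b ⟨0, hn⟩ z, ⟨W_sat, W_free⟩, ?_,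
      fun m z t => same_type (fun _ => ⟨0, hn⟩) z t, ?_, ?_, ?_⟩
    · refine Function.Injective.countable (f := fun y : W n => match y with
        | W.w i l => (Sum.inl (i, l) : (Fin n × List (ℤ × ℕ)) ⊕ (Fin n × ℤ))
        | W.b i z => Sum.inr (i, z)) ?_
      intro y y' h
      cases y <;> cases y' <;> simp_all
    · intro z z'
      have h1 := same_type (n := n) (fun _ : Fin 1 => ⟨0, hn⟩) (fun _ => z) (z' - z)
      simpa using h1
    · rintro z z' hne ⟨σ, hσ⟩
      obtain ⟨j, hj⟩ := auto_b σ ⟨0, hn⟩ z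
      rw [hj] at hσ
      simp only [W.b.injEq] at hσ
      exact hne hσ.2
    · intro h1 σ y
      subst h1
      exact auto_one σ y

end Pool.Agent.Results.MP_9f131e_lc.RigidInfinitelyManyPoints
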